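import Pool.Agent.helper64.ILF.Region98
import Pool.Agent.helper48.EL.Asymp

/-!
# Invariant line fields of `z ^ n + c`: location and area of the exceptional parameters

`HasInvariantLineField`, `juliaSet` and the notions they use are defined in
`Pool/Agent/helper98/ILF/Defs.lean`; `multibrot n` and `mainComponent n` are defined in
`Pool/Agent/helper16/Multibrot/Defs.lean`; `volume` is the area measure of `ℂ`.
-/

set_option autoImplicit false

namespace Pool.Agent.Results.MP_70a088_an.UnicriticalArea

open Pool.Agent.helper98.ILF Pool.Agent.helper16.Multibrot Pool.Agent.helper64.ILF98 MeasureTheory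
  Filter

/-- The parameters `c` for which `z ^ n + c` has an invariant line field on its Julia set or a
Julia set of positive area. -/
def exceptional (n : ℕ) : Set ℂ :=
  {c | HasInvariantLineField (fun z : ℂ => z ^ n + c) ∨
    0 < volume (juliaSet (fun z : ℂ => z ^ n + c))}

/-- The parameters `c`, modulo `2 π i`, for which `z ↦ exp z + c` has no attracting cycle. -/
def nonHyperbolicExp : Set ℂ :=
  {c | (0 ≤ c.im ∧ c.im ≤ 2 * Real.pi) ∧ ¬ ∃ z : ℂ, ∃ k : ℕ, 0 < k ∧
    (fun w : ℂ => Complex.exp w + c)^[k] z = z ∧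
    ‖deriv ((fun w : ℂ => Complex.exp w + c)^[k]) z‖ < 1}

lemma eq_expStrip : nonHyperbolicExp = Pool.Agent.helper48.EL.expStrip := rfl

lemma exceptional_subset {n : ℕ} (hn : 2 ≤ n) : exceptional n ⊆ multibrot n \ hyperbolic n := by
  rintro c (hc | hc)
  · exact posArea_subset hn (lineField_mem hc)
  · exact posArea_subset hn hc

/-- Area and location of the exceptional parameters of the family `z ^ n + c`. The area `A` of
`nonHyperbolicExp` is finite; the area of `exceptional n` is at most `(A + o(1)) / n`, at most the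
proportion `(A / π + o(1)) / log n` of the area of the part of the connectedness locus outside of
its main hyperbolic component, and at most `C / n` for all `n ≥ 2`. For `n ≥ 10 ^ 7` every
exceptional `c` satisfies `|c ^ (n - 1)| > 1 / (8 n)` and
`1 - 16 log n / n < |1 + c ^ (n - 1)| ≤ 1 + 4 log n / n`. -/
theorem result :
    volume nonHyperbolicExp < ⊤ ∧
    limsup (fun n : ℕ => (n : ENNReal) * volume (exceptional n)) atTop ≤
      volume nonHyperbolicExp ∧
    limsup (fun n : ℕ => ENNReal.ofReal (Real.log n) *
      (volume (exceptional n) / volume (multibrot n \ mainComponent n))) atTop ≤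
      volume nonHyperbolicExp / ENNReal.ofReal Real.pi ∧
    (∃ C : ℝ, 0 < C ∧ ∀ n : ℕ, 2 ≤ n → volume (exceptional n) ≤ ENNReal.ofReal (C / n)) ∧
    ∀ n : ℕ, 10 ^ 7 ≤ n → ∀ c ∈ exceptional n,
      1 / (8 * (n : ℝ)) < ‖c ^ (n - 1)‖ ∧ 1 - 16 * (Real.log n / n) < ‖1 + c ^ (n - 1)‖ ∧
        ‖1 + c ^ (n - 1)‖ ≤ 1 + 4 * (Real.log n / n) := by
  refine ⟨eq_expStrip ▸ Pool.Agent.helper48.EL.volume_expStrip_lt, ?_, ?_, ?_, ?_⟩
  · refine le_trans (limsup_le_limsup ?_) (eq_expStrip ▸ Pool.Agent.helper48.EL.limsup_le)
    filter_upwards [eventually_ge_atTop 2] with n hn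
    gcongr
    exact exceptional_subset hn
  · refine le_trans (limsup_le_limsup ?_) (eq_expStrip ▸ Pool.Agent.helper48.EL.limsup_ratio_le)
    filter_upwards [eventually_ge_atTop 2] with n hn
    gcongr
    exact exceptional_subset hn
  · obtain ⟨C, hC, h⟩ := Pool.Agent.helper48.EL.exists_const
    exact ⟨C, hC, fun n hn => (measure_mono (exceptional_subset hn)).trans (h n hn)⟩
  · intro n hn c hc
    have hn2 : 2 ≤ n := by
      have : 2 ≤ 10 ^ 7 := by norm_num
      omega
    exact region hn (exceptional_subset hn2 hc)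

end Pool.Agent.Results.MP_70a088_an.UnicriticalArea
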