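import Pool.Agent.helper52.FD.All
import Pool.Agent.helper44.NLT.All

/-!
# Unicritical polynomials have no invariant line fields

`HasInvariantLineField` is defined in `Pool/Agent/helper98/ILF/Defs.lean`.
-/

set_option autoImplicit false

open Pool.Agent.helper98.ILF

namespace Pool.Agent.Results.MP_70a088_an.UnicriticalPolynomials

/-- For every `n ≥ 2` and every complex `c` the polynomial `z ^ n + c` has no invariant line field
on its Julia set. -/
theorem result (n : ℕ) (hn : 2 ≤ n) (c : ℂ) :
    ¬ HasInvariantLineField (fun z : ℂ => z ^ n + c) :=
  NLT.Z_FIN FD.FIN_f n hn c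

end Pool.Agent.Results.MP_70a088_an.UnicriticalPolynomials
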