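import Pool.Agent.helper48.EL.Asymp

/-!
# The exponential family bounds the area of the non-hyperbolic part of `M_n`

`multibrot n`, `hyperbolic n` and `mainComponent n` are defined in
`Pool/Agent/helper16/Multibrot/Defs.lean`; `volume` is the area measure of `ℂ`.
-/

set_option autoImplicit false

namespace Pool.Agent.Results.MP_af9036_an.ExponentialLimit

open Pool.Agent.helper16.Multibrot MeasureTheory Filter

/-- The parameters `c`, modulo `2 π i`, for which `z ↦ exp z + c` has no attracting cycle. -/
def nonHyperbolicExp : Set ℂ :=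
  {c | (0 ≤ c.im ∧ c.im ≤ 2 * Real.pi) ∧ ¬ ∃ z : ℂ, ∃ k : ℕ, 0 < k ∧
    (fun w : ℂ => Complex.exp w + c)^[k] z = z ∧
    ‖deriv ((fun w : ℂ => Complex.exp w + c)^[k]) z‖ < 1}

lemma eq_expStrip : nonHyperbolicExp = Pool.Agent.helper48.EL.expStrip := rfl

/-- The area `A` of `nonHyperbolicExp` is finite, and the area of the non-hyperbolic part of `M_n`
is at most `(A + o(1)) / n`, while the area of the part of `M_n` outside of the main hyperbolic
component is `(π + o(1)) log n / n`. -/
theorem result :
    volume nonHyperbolicExp < ⊤ ∧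
    limsup (fun n : ℕ => (n : ENNReal) * volume (multibrot n \ hyperbolic n)) atTop ≤
      volume nonHyperbolicExp ∧
    Tendsto (fun n : ℕ => ENNReal.ofReal (n / Real.log n) *
      volume (multibrot n \ mainComponent n)) atTop (nhds (ENNReal.ofReal Real.pi)) ∧
    limsup (fun n : ℕ => ENNReal.ofReal (Real.log n) *
      (volume (multibrot n \ hyperbolic n) / volume (multibrot n \ mainComponent n))) atTop ≤
      volume nonHyperbolicExp / ENNReal.ofReal Real.pi ∧
    ∃ C : ℝ, 0 < C ∧
      (∀ n : ℕ, 2 ≤ n → volume (multibrot n \ hyperbolic n) ≤ ENNReal.ofReal (C / n)) ∧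
      ∀ n : ℕ, 10 ^ 7 ≤ n →
        ENNReal.ofReal (Real.log n / n) ≤ volume (multibrot n \ mainComponent n) ∧
        volume (multibrot n \ hyperbolic n) ≤
          ENNReal.ofReal (C / Real.log n) * volume (multibrot n \ mainComponent n) := by
  refine ⟨eq_expStrip ▸ Pool.Agent.helper48.EL.volume_expStrip_lt,
    eq_expStrip ▸ Pool.Agent.helper48.EL.limsup_le, Pool.Agent.helper48.EL.tendsto_outside,
    eq_expStrip ▸ Pool.Agent.helper48.EL.limsup_ratio_le, ?_⟩
  obtain ⟨C, hC, h⟩ := Pool.Agent.helper48.EL.exists_const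
  refine ⟨C, hC, h, fun n hn => ⟨le_volume_outside' hn, ?_⟩⟩
  refine (h n (by omega)).trans ?_
  refine le_trans ?_ (mul_le_mul_right (le_volume_outside' hn) _)
  have hn1 : (1 : ℝ) < n := by exact_mod_cast (by omega : 1 < n)
  have hl : 0 < Real.log n := Real.log_pos hn1
  rw [← ENNReal.ofReal_mul (by positivity)]
  apply ENNReal.ofReal_le_ofReal
  apply le_of_eq
  field_simp

end Pool.Agent.Results.MP_af9036_an.ExponentialLimit
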